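import Mathlib

set_option autoImplicit false

namespace Pool.Agent.H.MP_5d5585_co

open Finset Classical

lemma rank_sum {α : Type} [LinearOrder α] (A : Finset α) :
    ∑ a ∈ A, 1 / √((A.filter (· ≤ a)).card : ℝ) ≤ 2 * √(A.card : ℝ) := by
  induction A using Finset.induction_on_max with
  | empty => simp
  | insert a s h ih =>
    have ha : a ∉ s := fun h' => lt_irrefl _ (h a h')
    rw [sum_insert ha, card_insert_of_notMem ha]
    have e1 : (insert a s).filter (· ≤ a) = insert a s :=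
      filter_true_of_mem fun x hx => by
        rcases mem_insert.mp hx with rfl | hx
        · exact le_rfl
        · exact (h x hx).le
    have e2 : ∑ b ∈ s, 1 / √(((insert a s).filter (· ≤ b)).card : ℝ) =
        ∑ b ∈ s, 1 / √((s.filter (· ≤ b)).card : ℝ) := sum_congr rfl fun b hb => by
      rw [filter_insert, if_neg (not_le.mpr (h b hb))]
    rw [e1, e2, card_insert_of_notMem ha]
    push_cast
    have p0 : (0 : ℝ) ≤ s.card := Nat.cast_nonneg _
    have p1 := Real.sq_sqrt p0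
    have p2 := Real.sq_sqrt (show (0 : ℝ) ≤ s.card + 1 by linarith)
    have p3 : 0 < √((s.card : ℝ) + 1) := Real.sqrt_pos.mpr (by linarith)
    have : 1 / √((s.card : ℝ) + 1) ≤ 2 * √((s.card : ℝ) + 1) - 2 * √(s.card : ℝ) := by
      rw [div_le_iff₀ p3]
      nlinarith [sq_nonneg (√((s.card : ℝ) + 1) - √(s.card : ℝ))]
    linarith

lemma rank2 {α : Type} [LinearOrder α] (A : Finset α) :
    ∑ a ∈ A, 1 / (√((A.filter (· ≤ a)).card : ℝ) * √((A.filter (a ≤ ·)).card : ℝ)) ≤ 4 := by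
  rcases A.eq_empty_or_nonempty with rfl | hA
  · simp
  have s0 : 0 < √(A.card : ℝ) := Real.sqrt_pos.mpr (by exact_mod_cast hA.card_pos)
  have h1 := rank_sum A
  have h2 : ∑ a ∈ A, 1 / √((A.filter (a ≤ ·)).card : ℝ) ≤ 2 * √(A.card : ℝ) :=
    rank_sum (α := αᵒᵈ) A
  calc _ ≤ ∑ a ∈ A, (1 / √((A.filter (· ≤ a)).card : ℝ) + 1 / √((A.filter (a ≤ ·)).card : ℝ)) /
        √(A.card : ℝ) := by
        refine sum_le_sum fun a ha => ?_
        have k0 : (0 : ℝ) < (A.filter (· ≤ a)).card := by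
          exact_mod_cast card_pos.mpr ⟨a, by simp [ha]⟩
        have l0 : (0 : ℝ) < (A.filter (a ≤ ·)).card := by
          exact_mod_cast card_pos.mpr ⟨a, by simp [ha]⟩
        have kl : (A.card : ℝ) ≤ (A.filter (· ≤ a)).card + (A.filter (a ≤ ·)).card := by
          exact_mod_cast (card_le_card fun x hx => by
            simpa [hx] using le_total x a).trans (card_union_le _ _)
        have k1 := Real.sqrt_pos.mpr k0
        have l1 := Real.sqrt_pos.mpr l0
        have : √(A.card : ℝ) ≤ √((A.filter (· ≤ a)).card : ℝ) + √((A.filter (a ≤ ·)).card : ℝ) := by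
          rw [Real.sqrt_le_left (by positivity), add_sq, Real.sq_sqrt k0.le, Real.sq_sqrt l0.le]
          linarith [mul_pos (mul_pos two_pos k1) l1]
        rw [div_add_div _ _ k1.ne' l1.ne', le_div_iff₀ s0, div_mul_eq_mul_div]
        gcongr
        linarith
    _ ≤ 4 := by
        rw [← sum_div, sum_add_distrib, div_le_iff₀ s0]
        linarith

def Bd {I J : Type} [Fintype I] [Fintype J] (R : I → J → Prop) (C : ℝ) : Prop :=
  ∀ f : I → ℝ, (∀ i, 0 ≤ f i) → ∑ j, (∑ i, if R i j then f i else 0) ^ 2 ≤ C * ∑ i, f i ^ 2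

lemma span {N : ℕ} (S : Finset (Fin N)) {a b : Fin N} (hab : a ≤ b)
    (h : ∀ x ∈ S, a ≤ x ∧ x ≤ b) : (S.card : ℝ) ≤ ((b : ℕ) : ℝ) - (a : ℕ) + 1 := by
  have h1 : S.card ≤ (Icc a b).card := card_le_card fun x hx => mem_Icc.mpr (h x hx)
  rw [Fin.card_Icc] at h1
  have h2 : S.card + a ≤ b + 1 := by have : (a : ℕ) ≤ b := hab; omega
  have : ((S.card + a : ℕ) : ℝ) ≤ (b + 1 : ℕ) := by exact_mod_cast h2
  push_cast at this
  linarith

lemma oneD {N N' : ℕ} (R : Fin N → Fin N' → Prop) {L : ℝ} (hL : 0 < L)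
    (h : ∀ i j i' j', R i j → R i' j' → i ≤ i' → j' ≤ j →
      (((i' : ℕ) : ℝ) - (i : ℕ) + 1) * (((j : ℕ) : ℝ) - (j' : ℕ) + 1) ≤ L) : Bd R (16 * L) := by
  intro f f0
  let row : Fin N → Finset (Fin N') := fun i => univ.filter (R i ·)
  let col : Fin N' → Finset (Fin N) := fun j => univ.filter (R · j)
  let a : Fin N → Fin N' → ℝ := fun i j =>
    √(((row i).filter (· ≤ j)).card : ℝ) * √(((row i).filter (j ≤ ·)).card : ℝ)
  let b : Fin N → Fin N' → ℝ := fun i j =>
    √(((col j).filter (· ≤ i)).card : ℝ) * √(((col j).filter (i ≤ ·)).card : ℝ)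
  have key : ∀ i j, R i j → 0 < a i j ∧ 0 < b i j ∧ a i j * b i j ≤ L := by
    intro i j hij
    have n1 : ((row i).filter (· ≤ j)).Nonempty := ⟨j, by simp [row, hij]⟩
    have n2 : ((row i).filter (j ≤ ·)).Nonempty := ⟨j, by simp [row, hij]⟩
    have n3 : ((col j).filter (· ≤ i)).Nonempty := ⟨i, by simp [col, hij]⟩
    have n4 : ((col j).filter (i ≤ ·)).Nonempty := ⟨i, by simp [col, hij]⟩
    have m1 := min'_mem _ n1
    have m2 := max'_mem _ n2
    have m3 := min'_mem _ n3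
    have m4 := max'_mem _ n4
    simp only [row, col, mem_filter, mem_univ, true_and] at m1 m2 m3 m4
    have s1 := span _ m1.2 fun x hx => ⟨min'_le _ x hx, (mem_filter.mp hx).2⟩
    have s2 := span _ m2.2 fun x hx => ⟨(mem_filter.mp hx).2, le_max' _ x hx⟩
    have s3 := span _ m3.2 fun x hx => ⟨min'_le _ x hx, (mem_filter.mp hx).2⟩
    have s4 := span _ m4.2 fun x hx => ⟨(mem_filter.mp hx).2, le_max' _ x hx⟩
    have t1 := (mul_le_mul s4 s2 (Nat.cast_nonneg _) ((Nat.cast_nonneg _).trans s4)).trans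
      (h _ _ _ _ m2.1 m4.1 m4.2 m2.2)
    have t2 := (mul_le_mul s3 s1 (Nat.cast_nonneg _) ((Nat.cast_nonneg _).trans s3)).trans
      (h _ _ _ _ m3.1 m1.1 m3.2 m1.2)
    have p : ∀ {X : Type} {S : Finset X}, S.Nonempty → 0 < √(S.card : ℝ) := fun hS =>
      Real.sqrt_pos.mpr (by exact_mod_cast hS.card_pos)
    refine ⟨mul_pos (p n1) (p n2), mul_pos (p n3) (p n4), ?_⟩
    have u1 := Real.sqrt_le_sqrt t1
    have u2 := Real.sqrt_le_sqrt t2
    rw [Real.sqrt_mul (Nat.cast_nonneg _)] at u1 u2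
    have := mul_le_mul u1 u2 (by positivity) (Real.sqrt_nonneg _)
    rw [Real.mul_self_sqrt hL.le] at this
    refine le_trans (le_of_eq ?_) this
    simp only [a, b, row, col]
    ring
  calc _ ≤ ∑ j, 4 * L * ∑ i ∈ col j, f i ^ 2 * (1 / a i j) := by
        refine sum_le_sum fun j _ => ?_
        rw [← sum_filter]
        refine (sum_sq_le_sum_mul_sum_of_sq_le_mul (col j) (f := fun i => L * (1 / b i j))
          (g := fun i => f i ^ 2 * (1 / a i j)) (fun i hi => ?_) (fun i hi => ?_)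
          (fun i hi => ?_)).trans ?_
        · have := (key i j (mem_filter.mp hi).2).2.1; positivity
        · have := (key i j (mem_filter.mp hi).2).1; positivity
        · obtain ⟨k1, k2, k3⟩ := key i j (mem_filter.mp hi).2
          calc f i ^ 2 = f i ^ 2 * 1 := (mul_one _).symm
            _ ≤ f i ^ 2 * (L / (a i j * b i j)) :=
              mul_le_mul_of_nonneg_left ((one_le_div (mul_pos k1 k2)).mpr k3) (sq_nonneg _)
            _ = _ := by field_simp
        · refine mul_le_mul_of_nonneg_right ?_ (sum_nonneg fun i hi => ?_)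
          · rw [← mul_sum, mul_comm 4]
            exact mul_le_mul_of_nonneg_left (rank2 (col j)) hL.le
          · have := (key i j (mem_filter.mp hi).2).1; positivity
    _ = 4 * L * ∑ i, f i ^ 2 * ∑ j ∈ row i, 1 / a i j := by
        rw [← mul_sum]
        congr 1
        simp only [mul_sum, row, col, sum_filter]
        rw [sum_comm]
        simp
    _ ≤ 4 * L * ∑ i, f i ^ 2 * 4 := mul_le_mul_of_nonneg_left
        (sum_le_sum fun i _ => mul_le_mul_of_nonneg_left (rank2 (row i)) (sq_nonneg _))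
        (by positivity)
    _ = _ := by rw [← sum_mul]; ring

lemma Bd.prod {I I' J J' : Type} [Fintype I] [Fintype J] [Fintype I'] [Fintype J']
    (R : I × I' → J × J' → Prop) {C C' : ℝ} (hC : 0 ≤ C')
    (h1 : ∀ i', Bd (fun i j => ∃ j', R (i, i') (j, j')) C)
    (h2 : ∀ j, Bd (fun i' j' => ∃ i, R (i, i') (j, j')) C') : Bd R (C' * C) := by
  intro f f0
  let u : J → I' → ℝ := fun j i' => ∑ i, if ∃ j', R (i, i') (j, j') then f (i, i') else 0
  have u0 : ∀ j i', 0 ≤ u j i' := fun j i' => sum_nonneg fun i _ => by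
    split_ifs; exacts [f0 _, le_rfl]
  rw [Fintype.sum_prod_type, Fintype.sum_prod_type_right (fun i => f i ^ 2)]
  calc _ ≤ ∑ j, C' * ∑ i', u j i' ^ 2 := by
        refine sum_le_sum fun j _ => le_trans (sum_le_sum fun j' _ => ?_) (h2 j (u j) (u0 j))
        refine pow_le_pow_left₀ (sum_nonneg fun i _ => by split_ifs; exacts [f0 _, le_rfl]) ?_ 2
        rw [Fintype.sum_prod_type_right]
        refine sum_le_sum fun i' _ => ?_
        split_ifs with h
        · refine sum_le_sum fun i _ => ?_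
          by_cases h' : R (i, i') (j, j')
          · rw [if_pos h', if_pos ⟨j', h'⟩]
          · rw [if_neg h']
            split_ifs; exacts [f0 _, le_rfl]
        · exact (sum_eq_zero fun i _ => if_neg fun h' => h ⟨i, h'⟩).le
    _ = C' * ∑ i', ∑ j, u j i' ^ 2 := by rw [← mul_sum, sum_comm]
    _ ≤ C' * ∑ i', C * ∑ i, f (i, i') ^ 2 := mul_le_mul_of_nonneg_left
        (sum_le_sum fun i' _ => by
          refine le_trans (le_of_eq ?_) (h1 i' (fun i => f (i, i')) fun i => f0 _)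
          simp only [u]
          congr!) hC
    _ = _ := by rw [← mul_sum, mul_assoc]

lemma Bd.equiv {I I' J J' : Type} [Fintype I] [Fintype J] [Fintype I'] [Fintype J']
    (e : I' ≃ I) (e' : J' ≃ J) (R : I → J → Prop) {C : ℝ}
    (h : Bd (fun i j => R (e i) (e' j)) C) : Bd R C := by
  intro f f0
  have := h (fun i => f (e i)) fun i => f0 _
  rw [← e'.sum_comp, ← e.sum_comp (fun i => f i ^ 2)]
  refine le_trans (le_of_eq (sum_congr rfl fun j _ => ?_)) this
  rw [← e.sum_comp]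

lemma tensor {N N' : ℕ} {L : ℝ} (hL : 0 < L) (m : ℕ) :
    ∀ R : (Fin m → Fin N) → (Fin m → Fin N') → Prop,
    (∀ k i j i' j', R i j → R i' j' → (∀ l, k < l → i l = i' l) → (∀ l, l < k → j l = j' l) →
      i k ≤ i' k → j' k ≤ j k →
      (((i' k : ℕ) : ℝ) - (i k : ℕ) + 1) * (((j k : ℕ) : ℝ) - (j' k : ℕ) + 1) ≤ L) →
    Bd R ((16 * L) ^ m) := by
  induction m with
  | zero =>
    intro R _ f f0
    simp only [univ_unique, sum_singleton, pow_zero, one_mul]
    split_ifs
    · exact le_rfl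
    · simpa using sq_nonneg _
  | succ m ih =>
    intro R h
    refine Bd.equiv (Fin.consEquiv fun _ => Fin N) (Fin.consEquiv fun _ => Fin N') R ?_
    rw [pow_succ]
    refine Bd.prod _ (by positivity) (fun i' => oneD _ hL ?_) (fun j => ih _ ?_)
    · rintro i j i2 j2 ⟨a, ha⟩ ⟨b, hb⟩ h1 h2
      refine h 0 _ _ _ _ ha hb (fun l hl => ?_) (fun l hl => absurd hl (Fin.not_lt_zero l)) h1 h2
      obtain ⟨l, rfl⟩ := Fin.exists_succ_eq.mpr hl.ne'
      rfl
    · rintro k i j1 i2 j2 ⟨a, ha⟩ ⟨b, hb⟩ h1 h2 h3 h4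
      refine h k.succ _ _ _ _ ha hb (fun l hl => ?_) (fun l hl => ?_) h3 h4
      · obtain ⟨l, rfl⟩ := Fin.exists_succ_eq.mpr (lt_of_le_of_lt (Fin.zero_le _) hl).ne'
        exact h1 l (Fin.succ_lt_succ_iff.mp hl)
      · cases l using Fin.cases with
        | zero => rfl
        | succ l => exact h2 l (Fin.succ_lt_succ_iff.mp hl)

lemma CS {ι K : Type} [DecidableEq K] (S : Finset ι) (q : ι → K) (B : Finset K) (h : ∀ a ∈ S, q a ∈ B) :
    (S.card : ℝ) ^ 2 ≤ B.card * (((S ×ˢ S).filter fun p => q p.1 = q p.2).card : ℝ) := by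
  rw [card_eq_sum_card_fiberwise h, card_eq_sum_card_fiberwise (f := fun p => q p.1) (t := B)
    fun p hp => h _ (mem_product.mp (mem_filter.mp hp).1).1]
  push_cast
  refine sq_sum_le_card_mul_sum_sq.trans (mul_le_mul_of_nonneg_left
    (sum_le_sum fun b _ => ?_) (Nat.cast_nonneg _))
  rw [sq, ← Nat.cast_mul, ← card_product, Nat.cast_le]
  refine card_le_card fun p hp => ?_
  simp only [mem_product, mem_filter] at hp ⊢
  exact ⟨⟨⟨hp.1.1, hp.2.1⟩, hp.1.2.trans hp.2.2.symm⟩, hp.1.2⟩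

lemma fl_close (x : ℝ) {y δ : ℝ} (hδ : 0 < δ) (hy : 0 ≤ y) :
    ((⌊y / δ⌋₊ : ℝ) - ⌊x / δ⌋₊ - 1) * δ ≤ y - x := by
  have h1 := Nat.floor_le (div_nonneg hy hδ.le)
  have h2 := (Nat.lt_floor_add_one (x / δ)).le
  rw [le_div_iff₀ hδ] at h1
  rw [div_le_iff₀ hδ] at h2
  linarith

lemma fl_eq {x y δ : ℝ} (hδ : 0 < δ) (hx : 0 ≤ x) (hy : 0 ≤ y) (h : ⌊x / δ⌋₊ = ⌊y / δ⌋₊) :
    |x - y| ≤ δ := by
  have h1 := fl_close x hδ hy
  have h2 := fl_close y hδ hx
  rw [h] at h1 h2
  rw [abs_le]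
  constructor <;> linarith

end Pool.Agent.H.MP_5d5585_co
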