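import Pool.Agent.H.MP_5d5585_co.A

set_option autoImplicit false

namespace Pool.Agent.H.MP_5d5585_co

open Finset Classical

variable {ι : Type} [Fintype ι] {m : ℕ}

def Rel (p : ι → Fin m → ℝ) (t : ι → ℝ) (κ η : ℝ) (g : Fin m → ℝ) (a : ι) : Prop :=
  ∀ e : Fin m → ℝ, (∀ l, |e l| ≤ η) → ∀ b, ∑ l, (p b l - p a l) * (g l + e l) + (t b - t a) ≤ κ

noncomputable def PP (p : ι → Fin m → ℝ) (t : ι → ℝ) (δ : ℝ) : ℝ :=
  ((univ : Finset (ι × ι)).filter fun q =>
    (∀ l, |p q.1 l - p q.2 l| ≤ δ) ∧ |t q.1 - t q.2| ≤ δ).card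

lemma ML (p : ι → Fin m → ℝ) (t : ι → ℝ) (a0 : ι) (hp : ∀ a b l, |p a l - p b l| ≤ 1)
    {κ η δ σ : ℝ} (hδ : 0 < δ) (hδκ : δ ≤ κ) (hη : 0 < η) (hη1 : η ≤ 1) {N' : ℕ}
    (G : Fin N' → ℝ) (hG : ∀ j, |G j| ≤ 1) (hσ : σ = 1 ∨ σ = -1)
    (hG2 : ∀ j j', G j - G j' = σ * ((((j : ℕ) : ℝ) - (j' : ℕ)) * η)) :
    ∑ j : Fin m → Fin N', ((univ.filter (Rel p t κ η fun l => G (j l))).card : ℝ) ^ 2 ≤
      (16 * ((2 * m + 8) * κ / (δ * η))) ^ m * ((2 * m + 3) * κ / δ * PP p t δ) := by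
  have hκ : 0 < κ := hδ.trans_le hδκ
  have hσ1 : |σ| = 1 := by rcases hσ with rfl | rfl <;> simp
  have hσ2 : σ * σ = 1 := by rcases hσ with rfl | rfl <;> simp
  let r : ι → Fin m → ℝ := fun a l => σ * (p a l - p a0 l) + 1
  have hr : ∀ a l, 0 ≤ r a l ∧ r a l ≤ 2 := fun a l => by
    have : |σ * (p a l - p a0 l)| ≤ 1 := by rw [abs_mul, hσ1, one_mul]; exact hp _ _ _
    rw [abs_le] at this
    constructor <;> simp only [r] <;> linarith
  have hrp : ∀ a b l, p b l - p a l = σ * (r b l - r a l) := fun a b l => by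
    simp only [r]; linear_combination (p a l - p b l) * hσ2
  let idx : ι → Fin m → Fin (⌊2 / δ⌋₊ + 1) := fun a l => ⟨⌊r a l / δ⌋₊,
    Nat.lt_succ_of_le (Nat.floor_mono (div_le_div_of_nonneg_right (hr a l).2 hδ.le))⟩
  have hidx : ∀ a b l, idx a l = idx b l → |p b l - p a l| ≤ δ := fun a b l h => by
    rw [hrp, abs_mul, hσ1, one_mul]
    exact fl_eq hδ (hr b l).1 (hr a l).1 (congrArg Fin.val h).symm
  let S : Finset ι := univ.filter fun a => ∃ j : Fin m → Fin N', Rel p t κ η (fun l => G (j l)) a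
  let f : (Fin m → Fin (⌊2 / δ⌋₊ + 1)) → ℝ := fun i => (S.filter fun a => idx a = i).card
  have hT := tensor (L := (2 * m + 8) * κ / (δ * η)) (by positivity) m
    (fun i (j : Fin m → Fin N') => ∃ a, idx a = i ∧ Rel p t κ η (fun l => G (j l)) a) (by
      rintro k _ j _ j' ⟨a, rfl, ha⟩ ⟨b, rfl, hb⟩ h1 h2 h3 h4
      have s1 := ha (Pi.single k (σ * η)) (fun l => by
        by_cases h : l = k
        · rw [h, Pi.single_eq_same, abs_mul, hσ1, one_mul, abs_of_pos hη]
        · rw [Pi.single_eq_of_ne h, abs_zero]; exact hη.le) b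
      have s2 := hb 0 (fun l => by simpa using hη.le) a
      have s3 : ∑ l, (p b l - p a l) * (G (j l) - G (j' l) + (Pi.single k (σ * η) : Fin m → ℝ) l) ≤
          2 * κ := by
        refine le_trans (le_of_eq ?_) ((add_le_add s1 s2).trans (two_mul κ).ge)
        rw [add_add_add_comm, ← sum_add_distrib, show t b - t a + (t a - t b) = 0 by ring, add_zero]
        exact sum_congr rfl fun l _ => by simp only [Pi.zero_apply]; ring
      rw [← add_sum_erase _ _ (mem_univ k), Pi.single_eq_same] at s3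
      have s4 : ∑ l ∈ univ.erase k, -(2 * δ) ≤ ∑ l ∈ univ.erase k,
          (p b l - p a l) * (G (j l) - G (j' l) + (Pi.single k (σ * η) : Fin m → ℝ) l) := by
        refine sum_le_sum fun l hl => ?_
        have hl' := (mem_erase.mp hl).1
        rw [Pi.single_eq_of_ne hl', add_zero]
        rcases lt_or_gt_of_ne hl' with h | h
        · rw [h2 l h, sub_self, mul_zero]; linarith
        · refine neg_le_of_abs_le ?_
          rw [abs_mul, mul_comm 2]
          refine mul_le_mul (hidx a b l (h1 l h)) ((abs_sub _ _).trans ?_) (abs_nonneg _) hδ.le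
          linarith [hG (j l), hG (j' l)]
      have s5 : ((univ.erase k).card : ℝ) ≤ m := by
        exact_mod_cast (card_le_card (erase_subset _ _)).trans (by simp)
      rw [sum_const, nsmul_eq_mul] at s4
      have s6 := fl_close (r a k) hδ (hr b k).1
      have s7 : (((j' k : ℕ) : ℝ)) ≤ (j k : ℕ) := by exact_mod_cast h4
      have s8 : (((j k : ℕ) : ℝ) - (j' k : ℕ)) * η ≤ 2 := by
        have := hG2 (j k) (j' k)
        have h5 : |G (j k) - G (j' k)| ≤ 2 := (abs_sub _ _).trans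
          (by linarith [hG (j k), hG (j' k)])
        rw [this, abs_mul, hσ1, one_mul] at h5
        exact (le_abs_self _).trans h5
      rw [hG2, hrp, show σ * (r b k - r a k) * (σ * ((((j k : ℕ) : ℝ) - (j' k : ℕ)) * η) + σ * η) =
        (σ * σ) * ((r b k - r a k) * ((((j k : ℕ) : ℝ) - (j' k : ℕ) + 1) * η)) by ring, hσ2,
        one_mul] at s3
      rw [le_div_iff₀ (by positivity)]
      change ((⌊r b k / δ⌋₊ : ℝ) - ⌊r a k / δ⌋₊ + 1) * _ * _ ≤ _
      have s9 : 0 ≤ (((j k : ℕ) : ℝ) - (j' k : ℕ) + 1) * η := mul_nonneg (by linarith) hη.le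
      have s10 := mul_le_mul_of_nonneg_right s6 s9
      have s11 := mul_le_mul_of_nonneg_right s5 hδ.le
      have s12 := mul_le_mul_of_nonneg_left hδκ (Nat.cast_nonneg (α := ℝ) m)
      have s13 := mul_le_mul_of_nonneg_left (show (((j k : ℕ) : ℝ) - (j' k : ℕ) + 1) * η ≤ 3 by
        linarith) hδ.le
      linarith) f fun i => Nat.cast_nonneg _
  refine le_trans (sum_le_sum fun j _ => pow_le_pow_left₀ (Nat.cast_nonneg _) ?_ 2)
    (hT.trans (mul_le_mul_of_nonneg_left ?_ (by positivity)))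
  · rw [card_eq_sum_card_fiberwise (f := idx) (t := univ) fun _ _ => mem_univ _]
    push_cast
    refine sum_le_sum fun i _ => ?_
    split_ifs with h
    · refine Nat.cast_le.mpr (card_le_card fun a ha => ?_)
      simp only [S, mem_filter, mem_univ, true_and] at ha ⊢
      exact ⟨⟨j, ha.1⟩, ha.2⟩
    · rw [filter_eq_empty_iff.mpr fun a ha h' => h ⟨a, h', (mem_filter.mp ha).2⟩]
      simp
  · rw [PP, card_eq_sum_card_fiberwise (f := fun q => idx q.1) (t := univ) fun _ _ => mem_univ _]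
    push_cast
    rw [mul_sum]
    refine sum_le_sum fun i _ => ?_
    rcases (S.filter fun a => idx a = i).eq_empty_or_nonempty with h | ⟨c, hc⟩
    · have : f i = 0 := by
        change ((S.filter fun a => idx a = i).card : ℝ) = 0
        rw [h]; simp
      rw [this, zero_pow two_ne_zero]
      exact mul_nonneg (by positivity) (Nat.cast_nonneg _)
    have hv : ∀ a ∈ S.filter fun a => idx a = i, ∀ b ∈ S.filter fun a => idx a = i,
        t b - t a ≤ (m + 1) * κ := by
      intro a ha b hb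
      simp only [S, mem_filter, mem_univ, true_and] at ha hb
      obtain ⟨j, hj⟩ := ha.1
      have s1 := hj 0 (fun l => by simpa using hη.le) b
      have s2 : ∑ l : Fin m, -δ ≤ ∑ l, (p b l - p a l) * (G (j l) + (0 : Fin m → ℝ) l) :=
        sum_le_sum fun l _ => neg_le_of_abs_le (by
          rw [abs_mul, Pi.zero_apply, add_zero]
          exact (mul_le_of_le_one_right (abs_nonneg _) (hG _)).trans
            (hidx a b l (by rw [ha.2, hb.2])))
      rw [sum_const, card_univ, Fintype.card_fin, nsmul_eq_mul] at s2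
      linarith [mul_le_mul_of_nonneg_left hδκ (Nat.cast_nonneg (α := ℝ) m)]
    have h1 := CS (S.filter fun a => idx a = i) (fun a => ⌊(t a - t c + (m + 1) * κ) / δ⌋₊)
      (range (⌊2 * ((m + 1) * κ) / δ⌋₊ + 1)) fun a ha => mem_range.mpr (Nat.lt_succ_of_le
        (Nat.floor_mono (div_le_div_of_nonneg_right (by linarith [hv c hc a ha]) hδ.le)))
    refine h1.trans (mul_le_mul ?_ (Nat.cast_le.mpr (card_le_card fun q hq => ?_))
      (Nat.cast_nonneg _) (by positivity))
    · rw [card_range]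
      push_cast
      have := Nat.floor_le (show 0 ≤ 2 * ((m + 1) * κ) / δ by positivity)
      have h2 : 1 ≤ κ / δ := (one_le_div hδ).mpr hδκ
      calc _ ≤ 2 * ((m + 1) * κ) / δ + κ / δ := by linarith
        _ = _ := by ring
    · obtain ⟨hq1, hq2⟩ := mem_filter.mp hq
      obtain ⟨q1, q2⟩ := mem_product.mp hq1
      have i1 := (mem_filter.mp q1).2
      have i2 := (mem_filter.mp q2).2
      refine mem_filter.mpr ⟨mem_filter.mpr ⟨mem_univ _, fun l => hidx _ _ l (by rw [i1, i2]), ?_⟩,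
        i1⟩
      have := fl_eq hδ (by linarith [hv _ q1 c hc]) (by linarith [hv _ q2 c hc]) hq2
      simpa using this

lemma ang {d : ℕ} (z w e : EuclideanSpace ℝ (Fin d)) {ε s : ℝ} (hs : 0 < s) (hw : z = s • w)
    (hw1 : 1 ≤ ‖w‖) (hz1 : ‖z‖ ≤ 1) (hz : 1 - ε ≤ ‖z‖) :
    ‖w + e‖ - inner ℝ z (w + e) ≤ ε * ‖w + e‖ + ‖e‖ ^ 2 := by
  have h1 : ‖z‖ = s * ‖w‖ := by rw [hw, norm_smul, Real.norm_of_nonneg hs.le]
  have h2 : inner ℝ z (w + e) = s * (‖w‖ ^ 2 + inner ℝ w e) := by
    rw [hw, real_inner_smul_left, inner_add_right, real_inner_self_eq_norm_sq]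
  have h3 := norm_add_sq_real w e
  have h4 : ‖w‖ * ‖w + e‖ ≤ ‖w‖ ^ 2 + inner ℝ w e + ‖e‖ ^ 2 := by
    nlinarith [sq_nonneg (‖w‖ - ‖w + e‖), sq_nonneg ‖e‖]
  have h5 : s ≤ 1 := by nlinarith
  have h6 := mul_le_mul_of_nonneg_left h4 hs.le
  have h7 := mul_le_mul_of_nonneg_right hz (norm_nonneg (w + e))
  have h8 := mul_le_mul_of_nonneg_right h5 (sq_nonneg ‖e‖)
  rw [h1] at h7
  rw [h2]
  linarith

lemma chart (x : ι → EuclideanSpace ℝ (Fin (m + 1))) (a0 : ι) (hx : ∀ a b, ‖x a - x b‖ ≤ 1)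
    (c : Fin (m + 1)) {ε δ : ℝ} (hδ : 0 < δ) (hδε : δ ≤ ε) (hε1 : ε < 1) :
    (((univ : Finset (ι × ι)).filter fun q => 1 - ε ≤ ‖x q.1 - x q.2‖ ∧
      ∀ l, |x q.1 l - x q.2 l| ≤ x q.1 c - x q.2 c).card : ℝ) ≤
      (16 * ((2 * m + 8) * (7 * (m + 1) * ε) / (δ * √ε))) ^ m *
        ((2 * m + 3) * (7 * (m + 1) * ε) / δ *
          PP (fun a l => x a (c.succAbove l)) (fun a => x a c) δ) := by
  have hε : 0 < ε := hδ.trans_le hδε
  have hη : 0 < √ε := Real.sqrt_pos.mpr hε
  have hη1 : √ε ≤ 1 := Real.sqrt_le_one.mpr hε1.le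
  have hm : (0 : ℝ) ≤ m := Nat.cast_nonneg _
  have hδκ : δ ≤ 7 * (m + 1) * ε := by nlinarith
  let G : Fin (⌊2 / √ε⌋₊ + 1) → ℝ := fun j => (j : ℕ) * √ε - 1
  have hG : ∀ j, |G j| ≤ 1 := fun j => by
    have h1 : (((j : ℕ) : ℝ)) ≤ ⌊2 / √ε⌋₊ := by exact_mod_cast Nat.le_of_lt_succ j.2
    have h2 := h1.trans (Nat.floor_le (by positivity))
    rw [le_div_iff₀ hη] at h2
    have : 0 ≤ ((j : ℕ) : ℝ) * √ε := by positivity
    rw [abs_le]
    constructor <;> simp only [G] <;> linarith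
  have hc : ∀ a b l, |x a l - x b l| ≤ 1 := fun a b l =>
    (PiLp.norm_apply_le (x a - x b) l).trans (hx a b)
  have m1 := ML (fun a l => x a (c.succAbove l)) (fun a => x a c) a0 (fun a b l => hc _ _ _)
    hδ hδκ hη hη1 G hG (Or.inl rfl) fun j j' => by simp only [G]; ring
  have m2 := ML (fun a l => x a (c.succAbove l)) (fun a => -x a c) a0 (fun a b l => hc _ _ _)
    hδ hδκ hη hη1 (fun j => -G j) (fun j => by rw [abs_neg]; exact hG j) (Or.inr rfl)
    fun j j' => by simp only [G]; ring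
  have e : PP (fun a l => x a (c.succAbove l)) (fun a => -x a c) δ =
      PP (fun a l => x a (c.succAbove l)) (fun a => x a c) δ := by
    simp only [PP, neg_sub_neg, abs_sub_comm]
  rw [e] at m2
  let A : (Fin m → Fin (⌊2 / √ε⌋₊ + 1)) → Finset ι := fun j => univ.filter
    (Rel (fun a l => x a (c.succAbove l)) (fun a => x a c) (7 * (m + 1) * ε) √ε fun l => G (j l))
  let B : (Fin m → Fin (⌊2 / √ε⌋₊ + 1)) → Finset ι := fun j => univ.filter
    (Rel (fun a l => x a (c.succAbove l)) (fun a => -x a c) (7 * (m + 1) * ε) √ε fun l => -G (j l))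
  have h1 : ((univ : Finset (ι × ι)).filter fun q => 1 - ε ≤ ‖x q.1 - x q.2‖ ∧
      ∀ l, |x q.1 l - x q.2 l| ≤ x q.1 c - x q.2 c) ⊆ univ.biUnion fun j => A j ×ˢ B j := by
    rintro ⟨a, b⟩ hq
    obtain ⟨h2, h3⟩ := (mem_filter.mp hq).2
    simp only at h2 h3
    have hs : 0 < x a c - x b c := by
      refine lt_of_le_of_ne ((abs_nonneg _).trans (h3 c)) fun h => ?_
      have : x a - x b = 0 := by
        ext l
        simpa [← h] using h3 l
      rw [this, norm_zero] at h2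
      linarith
    set s := x a c - x b c with hsd
    let w : EuclideanSpace ℝ (Fin (m + 1)) := s⁻¹ • (x a - x b)
    have hw : x a - x b = s • w := by simp only [w, smul_smul, mul_inv_cancel₀ hs.ne', one_smul]
    have hwc : w c = 1 := inv_mul_cancel₀ hs.ne'
    have hwl : ∀ l, |w l| ≤ 1 := fun l => by
      change |s⁻¹ * (x a l - x b l)| ≤ 1
      rw [abs_mul, abs_of_pos (inv_pos.mpr hs), inv_mul_le_iff₀ hs, mul_one]
      exact h3 l
    have hw1 : 1 ≤ ‖w‖ := by simpa [hwc] using PiLp.norm_apply_le w c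
    let j : Fin m → Fin (⌊2 / √ε⌋₊ + 1) := fun l => ⟨⌊(w (c.succAbove l) + 1) / √ε⌋₊,
      Nat.lt_succ_of_le (Nat.floor_mono (div_le_div_of_nonneg_right
        (by linarith [(abs_le.mp (hwl (c.succAbove l))).2]) hη.le))⟩
    have hj : ∀ l, |G (j l) - w (c.succAbove l)| ≤ √ε := fun l => by
      have i0 : 0 ≤ w (c.succAbove l) + 1 := by linarith [(abs_le.mp (hwl (c.succAbove l))).1]
      have i1 := Nat.floor_le (div_nonneg i0 hη.le)
      have i2 := (Nat.lt_floor_add_one ((w (c.succAbove l) + 1) / √ε)).le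
      rw [le_div_iff₀ hη] at i1
      rw [div_le_iff₀ hη] at i2
      rw [abs_le]
      constructor <;> simp only [G, j] <;> linarith
    have key : ∀ e : Fin m → ℝ, (∀ l, |e l| ≤ √ε) → ∀ y : EuclideanSpace ℝ (Fin (m + 1)),
        ‖y‖ ≤ 1 → ∑ l, (y (c.succAbove l) - (x a (c.succAbove l) - x b (c.succAbove l))) *
          (G (j l) + e l) + (y c - s) ≤ 7 * (m + 1) * ε := by
      intro e he y hy
      let E : EuclideanSpace ℝ (Fin (m + 1)) := WithLp.toLp 2
        (c.insertNth (α := fun _ => ℝ) 0 fun l => G (j l) + e l - w (c.succAbove l))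
      have E1 : E c = 0 := by simp [E]
      have E2 : ∀ l, E (c.succAbove l) = G (j l) + e l - w (c.succAbove l) := fun l => by simp [E]
      have i1 : ∑ l, (y (c.succAbove l) - (x a (c.succAbove l) - x b (c.succAbove l))) *
          (G (j l) + e l) + (y c - s) = inner ℝ y (w + E) - inner ℝ (x a - x b) (w + E) := by
        rw [← inner_sub_left, PiLp.inner_apply, Fin.sum_univ_succAbove _ c, add_comm]
        simp only [PiLp.add_apply, PiLp.sub_apply, E1, E2, hwc, RCLike.inner_apply, conj_trivial]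
        congr 1
        · ring
        · exact sum_congr rfl fun l _ => by ring
      have i2 := (real_inner_le_norm y (w + E)).trans (mul_le_of_le_one_left (norm_nonneg _) hy)
      have i3 := ang _ w E hs hw hw1 (hx a b) h2
      have i4 : ‖E‖ ^ 2 ≤ 4 * m * ε := by
        rw [EuclideanSpace.real_norm_sq_eq, Fin.sum_univ_succAbove _ c, E1]
        have : ∑ l, E (c.succAbove l) ^ 2 ≤ ∑ _l : Fin m, 4 * ε := sum_le_sum fun l _ => by
          have k1 : |E (c.succAbove l)| ≤ 2 * √ε := by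
            rw [E2, add_sub_right_comm]
            linarith [abs_add_le (G (j l) - w (c.succAbove l)) (e l), hj l, he l]
          have := pow_le_pow_left₀ (abs_nonneg _) k1 2
          rw [sq_abs, mul_pow, Real.sq_sqrt hε.le] at this
          linarith
        simp only [sum_const, card_univ, Fintype.card_fin, nsmul_eq_mul] at this
        linarith
      have i5 : ‖w + E‖ ≤ 3 * (m + 1) := by
        refine le_of_sq_le_sq ?_ (by positivity)
        rw [EuclideanSpace.real_norm_sq_eq, Fin.sum_univ_succAbove _ c]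
        have : ∑ l, (w + E) (c.succAbove l) ^ 2 ≤ ∑ _l : Fin m, (4 : ℝ) := sum_le_sum fun l _ => by
          have k1 : |(w + E) (c.succAbove l)| ≤ 2 := by
            rw [PiLp.add_apply, E2, add_sub_cancel]
            linarith [abs_add_le (G (j l)) (e l), hG (j l), he l]
          have := pow_le_pow_left₀ (abs_nonneg _) k1 2
          rw [sq_abs] at this
          linarith
        simp only [sum_const, card_univ, Fintype.card_fin, nsmul_eq_mul] at this
        rw [PiLp.add_apply, E1, hwc]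
        nlinarith
      have i6 := mul_le_mul_of_nonneg_left i5 hε.le
      rw [i1]
      linarith
    refine mem_biUnion.mpr ⟨j, mem_univ _, mem_product.mpr ⟨mem_filter.mpr ⟨mem_univ _, ?_⟩,
      mem_filter.mpr ⟨mem_univ _, ?_⟩⟩⟩
    · intro e he u
      refine le_trans (le_of_eq ?_) (key e he _ (hx u b))
      simp only [PiLp.sub_apply, hsd]
      congr 1
      · exact sum_congr rfl fun l _ => by ring
      · ring
    · intro e he u
      refine le_trans (le_of_eq ?_) (key (-e) (fun l => by simpa using he l) _ (hx a u))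
      simp only [PiLp.sub_apply, hsd, Pi.neg_apply]
      congr 1
      · exact sum_congr rfl fun l _ => by ring
      · ring
  have h2 := (card_le_card h1).trans card_biUnion_le
  simp only [card_product] at h2
  have h3 : ∑ j, ((A j).card : ℝ) * (B j).card ≤
      ∑ j, (((A j).card : ℝ) ^ 2 + ((B j).card : ℝ) ^ 2) / 2 :=
    sum_le_sum fun j _ => by nlinarith [sq_nonneg (((A j).card : ℝ) - (B j).card)]
  rw [← sum_div, sum_add_distrib] at h3
  refine le_trans (by exact_mod_cast h2) (h3.trans ?_)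
  linarith

lemma main (m : ℕ) (X : Finset (EuclideanSpace ℝ (Fin (m + 1)))) {ε₁ ε₂ ε : ℝ} (h0 : 0 < ε₁)
    (h1 : ε₁ ≤ ε) (h2 : ε₂ ≤ ε) (h3 : ε < 1) (hX : ∀ x ∈ X, ∀ y ∈ X, dist x y ≤ 1)
    (hc : 2 * (3 * (m + 1) / ε₁) ^ (m + 1) ≤ X.card) :
    ((X.offDiag.filter (fun p => 1 - ε₂ ≤ dist p.1 p.2)).card : ℝ) ≤
      4 * (m + 1) * ((16 * ((2 * m + 8) * (7 * (m + 1) ^ 2))) ^ m * ((2 * m + 3) * (7 * (m + 1) ^ 2))) *
        ((√ε / ε₁) ^ m * (ε / ε₁)) *
        ((X.offDiag.filter (fun p => dist p.1 p.2 ≤ ε₁)).card : ℝ) := by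
  have hm : (0 : ℝ) ≤ m := Nat.cast_nonneg _
  have hε : 0 < ε := h0.trans_le h1
  have hδ : 0 < ε₁ / (m + 1) := by positivity
  have hδ1 : ε₁ / (m + 1) ≤ ε₁ := div_le_self h0.le (by linarith)
  have hn : (0 : ℝ) < X.card := lt_of_lt_of_le (by positivity) hc
  obtain ⟨a0, ha0⟩ : X.Nonempty := card_pos.mp (by exact_mod_cast hn)
  let x : X → EuclideanSpace ℝ (Fin (m + 1)) := fun a => a.1
  have hx : ∀ a b, ‖x a - x b‖ ≤ 1 := fun a b => by
    rw [← dist_eq_norm]; exact hX _ a.2 _ b.2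
  have hcc : ∀ a b l, |x a l - x b l| ≤ 1 := fun a b l =>
    (PiLp.norm_apply_le (x a - x b) l).trans (hx a b)
  set N : ℝ := ((X.offDiag.filter (fun p => dist p.1 p.2 ≤ ε₁)).card : ℝ) with hN
  let Q : Finset (X × X) := univ.filter fun q => ∀ l, |x q.1 l - x q.2 l| ≤ ε₁ / (m + 1)
  have q1 : (Q.card : ℝ) ≤ X.card + N := by
    have : Q.card ≤ (X.diag ∪ X.offDiag.filter (fun p => dist p.1 p.2 ≤ ε₁)).card := by
      refine card_le_card_of_injOn (fun q => (q.1.1, q.2.1)) (fun q hq => ?_) fun q _ q' _ h => ?_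
      · have hq2 := (mem_filter.mp hq).2
        rw [mem_coe, mem_union, mem_filter, mem_diag, mem_offDiag]
        by_cases h : q.1.1 = q.2.1
        · exact Or.inl ⟨q.1.2, h⟩
        refine Or.inr ⟨⟨q.1.2, q.2.2, h⟩, ?_⟩
        rw [dist_eq_norm]
        refine le_of_sq_le_sq ?_ h0.le
        rw [EuclideanSpace.real_norm_sq_eq]
        calc _ ≤ ∑ _l : Fin (m + 1), (ε₁ / (m + 1)) ^ 2 := sum_le_sum fun l _ => by
              rw [← sq_abs]; exact pow_le_pow_left₀ (abs_nonneg _) (hq2 l) 2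
          _ = ε₁ ^ 2 / (m + 1) := by simp; field_simp
          _ ≤ _ := div_le_self (by positivity) (by linarith)
      · exact Prod.ext (Subtype.ext (congrArg Prod.fst h)) (Subtype.ext (congrArg Prod.snd h))
    have h4 := this.trans (card_union_le _ _)
    rw [diag_card] at h4
    rw [hN]
    exact_mod_cast h4
  have q2 : (X.card : ℝ) ^ 2 ≤ (3 * (m + 1) / ε₁) ^ (m + 1) * Q.card := by
    have hr : ∀ a l, 0 ≤ x a l - a0 l + 1 ∧ x a l - a0 l + 1 ≤ 2 := fun a l => by
      have := abs_le.mp (hcc a ⟨a0, ha0⟩ l)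
      constructor <;> simp only [x] at this ⊢ <;> linarith
    have := CS (univ : Finset X) (fun a l => ⌊(x a l - a0 l + 1) / (ε₁ / (m + 1))⌋₊)
      (Fintype.piFinset fun _ => range (⌊2 / (ε₁ / (m + 1))⌋₊ + 1)) fun a _ =>
        Fintype.mem_piFinset.mpr fun l => mem_range.mpr (Nat.lt_succ_of_le (Nat.floor_mono
          (div_le_div_of_nonneg_right (hr a l).2 hδ.le)))
    rw [card_univ, Fintype.card_coe] at this
    refine this.trans (mul_le_mul ?_ (Nat.cast_le.mpr (card_le_card fun q hq => ?_))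
      (Nat.cast_nonneg _) (by positivity))
    · rw [Fintype.card_piFinset_const, card_range]
      push_cast
      refine pow_le_pow_left₀ (by positivity) ?_ _
      have i1 := Nat.floor_le (show 0 ≤ 2 / (ε₁ / (m + 1)) by positivity)
      have i2 : 1 ≤ 1 / (ε₁ / (m + 1)) := (one_le_div hδ).mpr (by linarith)
      calc _ ≤ 2 / (ε₁ / (m + 1)) + 1 / (ε₁ / (m + 1)) := by linarith
        _ = _ := by field_simp; norm_num
    · refine mem_filter.mpr ⟨mem_univ _, fun l => ?_⟩
      have := fl_eq hδ (hr _ l).1 (hr _ l).1 (congrFun (mem_filter.mp hq).2 l)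
      simpa using this
  have q3 : (Q.card : ℝ) ≤ 2 * N := by
    have : 2 * (X.card : ℝ) ≤ Q.card := by
      refine le_of_mul_le_mul_left ?_ hn
      nlinarith [mul_le_mul_of_nonneg_right hc (Nat.cast_nonneg (α := ℝ) Q.card)]
    linarith
  let T : Fin (m + 1) → Finset (X × X) := fun c => univ.filter fun q =>
    1 - ε ≤ ‖x q.1 - x q.2‖ ∧ ∀ l, |x q.1 l - x q.2 l| ≤ x q.1 c - x q.2 c
  have t1 : ∀ c, ((T c).card : ℝ) ≤ ((16 * ((2 * m + 8) * (7 * (m + 1) ^ 2))) ^ m *
      ((2 * m + 3) * (7 * (m + 1) ^ 2))) * ((√ε / ε₁) ^ m * (ε / ε₁)) * (2 * N) := fun c => by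
    refine (chart x ⟨a0, ha0⟩ hx c hδ (hδ1.trans h1) h3).trans ?_
    have e1 : PP (fun a l => x a (c.succAbove l)) (fun a => x a c) (ε₁ / (m + 1)) = Q.card := by
      simp only [PP, Q, Fin.forall_iff_succAbove c, and_comm]
    have e2 : 16 * ((2 * m + 8) * (7 * (m + 1) * ε) / (ε₁ / (m + 1) * √ε)) =
        16 * ((2 * m + 8) * (7 * (m + 1) ^ 2)) * (√ε / ε₁) := by
      have := Real.sqrt_pos.mpr hε
      have h5 := Real.mul_self_sqrt hε.le
      generalize √ε = s at *
      rw [← h5]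
      field_simp
    rw [e1, e2, mul_pow]
    calc _ ≤ (16 * ((2 * m + 8) * (7 * (m + 1) ^ 2))) ^ m * (√ε / ε₁) ^ m *
          ((2 * m + 3) * (7 * (m + 1) * ε) / (ε₁ / (m + 1)) * (2 * N)) := by gcongr
      _ = _ := by field_simp
  have t2 : X.offDiag.filter (fun p => 1 - ε₂ ≤ dist p.1 p.2) ⊆ univ.biUnion fun c =>
      (T c).image (fun q => (q.1.1, q.2.1)) ∪ (T c).image (fun q => (q.2.1, q.1.1)) := by
    rintro ⟨u, v⟩ hp
    obtain ⟨hp1, hp2⟩ := mem_filter.mp hp
    obtain ⟨hu, hv, -⟩ := mem_offDiag.mp hp1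
    obtain ⟨c, -, hc⟩ := exists_max_image univ (fun l => |u l - v l|) univ_nonempty
    refine mem_biUnion.mpr ⟨c, mem_univ _, mem_union.mpr ?_⟩
    rw [dist_eq_norm] at hp2
    rcases le_total 0 (u c - v c) with h | h
    · refine Or.inl (mem_image.mpr ⟨(⟨u, hu⟩, ⟨v, hv⟩), mem_filter.mpr ⟨mem_univ _,
        by simp only [x]; linarith, fun l => ?_⟩, rfl⟩)
      exact (hc l (mem_univ _)).trans (abs_of_nonneg h).le
    · refine Or.inr (mem_image.mpr ⟨(⟨v, hv⟩, ⟨u, hu⟩), mem_filter.mpr ⟨mem_univ _,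
        by simp only [x]; rw [norm_sub_rev]; linarith, fun l => ?_⟩, rfl⟩)
      have := (hc l (mem_univ _)).trans (abs_of_nonpos h).le
      simp only [x]
      rw [abs_sub_comm]
      linarith
  have t3 := (card_le_card t2).trans (card_biUnion_le.trans (sum_le_sum fun c _ =>
    (card_union_le _ _).trans (add_le_add card_image_le card_image_le)))
  have t4 : ((X.offDiag.filter (fun p => 1 - ε₂ ≤ dist p.1 p.2)).card : ℝ) ≤
      ∑ c, (((T c).card : ℝ) + (T c).card) := by exact_mod_cast t3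
  refine t4.trans ((sum_le_sum fun c _ => add_le_add (t1 c) (t1 c)).trans (le_of_eq ?_))
  rw [sum_const, card_univ, Fintype.card_fin, nsmul_eq_mul]
  push_cast
  ring

end Pool.Agent.H.MP_5d5585_co
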